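import Mathlib
import Pool.Agent.H266R3.LDef

set_option autoImplicit false

/-!
Definitions for MP_05d620_an: octahedral norms, the completed projective tensor product, and the metric space of the
counterexample.
-/

namespace Pool.Agent.R514.OC

/-- `Z` has an octahedral norm. -/
def Octahedral (Z : Type) [NormedAddCommGroup Z] [NormedSpace ℝ Z] : Prop :=
  ∀ Y : Submodule ℝ Z, FiniteDimensional ℝ Y → ∀ ε : ℝ, 0 < ε →
    ∃ z : Z, ‖z‖ = 1 ∧ ∀ y ∈ Y, ∀ c : ℝ, (1 - ε) * (‖y‖ + |c|) ≤ ‖y + c • z‖

section PT

variable (A X : Type) [NormedAddCommGroup A] [NormedSpace ℝ A] [NormedAddCommGroup X] [NormedSpace ℝ X]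

/-- The space of the bounded bilinear forms on `A × X`. -/
def Bil : Type := A →L[ℝ] X →L[ℝ] ℝ

noncomputable instance : NormedAddCommGroup (Bil A X) := inferInstanceAs (NormedAddCommGroup (A →L[ℝ] X →L[ℝ] ℝ))
noncomputable instance : NormedSpace ℝ (Bil A X) := inferInstanceAs (NormedSpace ℝ (A →L[ℝ] X →L[ℝ] ℝ))

variable {A X}

/-- The value of a bilinear form. -/
noncomputable def Bil.val (b : Bil A X) (a : A) (x : X) : ℝ := (show A →L[ℝ] X →L[ℝ] ℝ from b) a x

lemma Bil.val_le (b : Bil A X) (a : A) (x : X) : |b.val a x| ≤ ‖b‖ * ‖a‖ * ‖x‖ := by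
  have h := (show A →L[ℝ] X →L[ℝ] ℝ from b).le_opNorm₂ a x
  exact h

variable (A X)

/-- The elementary tensor `a ⊗ x`, as the functional `b ↦ b(a, x)` on the bounded bilinear forms. -/
noncomputable def elem (a : A) (x : X) : StrongDual ℝ (Bil A X) :=
  LinearMap.mkContinuous
    { toFun := fun b => b.val a x
      map_add' := fun _ _ => rfl
      map_smul' := fun _ _ => rfl } (‖a‖ * ‖x‖) (fun b => by
        have := b.val_le a x
        calc ‖b.val a x‖ ≤ ‖b‖ * ‖a‖ * ‖x‖ := this
          _ = ‖a‖ * ‖x‖ * ‖b‖ := by ring)

/-- The closed linear span of the elementary tensors in the dual of the space of the bounded bilinear forms. -/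
noncomputable def tensorSpan : Submodule ℝ (StrongDual ℝ (Bil A X)) :=
  (Submodule.span ℝ {T | ∃ a x, T = elem A X a x}).topologicalClosure

/-- The completed projective tensor product of `A` and `X`: the closed linear span of the elementary tensors in the
dual of the space of the bounded bilinear forms on `A × X` (with the norm of this dual space). -/
def ProjTensor : Type := ↥(tensorSpan A X)

noncomputable instance : NormedAddCommGroup (ProjTensor A X) := Submodule.normedAddCommGroup (tensorSpan A X)
noncomputable instance : NormedSpace ℝ (ProjTensor A X) := Submodule.normedSpace (tensorSpan A X)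

end PT

end Pool.Agent.R514.OC
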