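import Mathlib
import Pool.Agent.R514.OC.Defs

set_option autoImplicit false

/-! The metric space of the counterexample and the octahedrality of its Lipschitz-free space. -/

namespace Pool.Agent.R514.OC

open Pool.Agent.H266R3.LF

/-- the underlying set: three points and an infinite set -/
abbrev Pt : Type := Fin 3 ⊕ ℕ

/-- the distances: `9` between the three points, `5` between them and the infinite set, `1` in the infinite set -/
noncomputable def dd : Pt → Pt → ℝ
  | Sum.inl i, Sum.inl j => if i = j then 0 else 9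
  | Sum.inl _, Sum.inr _ => 5
  | Sum.inr _, Sum.inl _ => 5
  | Sum.inr a, Sum.inr b => if a = b then 0 else 1

/-- the metric space -/
structure Mt : Type where
  /-- the point -/
  pt : Pt

lemma dd_triangle (x y z : Pt) : dd x z ≤ dd x y + dd y z := by
  rcases x with i | a <;> rcases y with j | b <;> rcases z with k | c <;> simp only [dd]
  · by_cases h1 : i = j
    · subst h1; simp
    · by_cases h2 : j = k
      · subst h2; simp
      · rw [if_neg h1, if_neg h2]; split_ifs <;> norm_num
  · split_ifs <;> norm_num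
  · split_ifs <;> norm_num
  · split_ifs <;> norm_num
  · split_ifs <;> norm_num
  · split_ifs <;> norm_num
  · split_ifs <;> norm_num
  · by_cases h1 : a = b
    · subst h1; simp
    · by_cases h2 : b = c
      · subst h2; simp
      · rw [if_neg h1, if_neg h2]; split_ifs <;> norm_num

lemma dd_zero (x y : Pt) (h : dd x y = 0) : x = y := by
  rcases x with i | a <;> rcases y with j | b <;> simp only [dd] at h
  · by_cases h1 : i = j
    · rw [h1]
    · rw [if_neg h1] at h; norm_num at h
  · norm_num at h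
  · norm_num at h
  · by_cases h1 : a = b
    · rw [h1]
    · rw [if_neg h1] at h; norm_num at h

noncomputable instance : MetricSpace Mt where
  dist x y := dd x.pt y.pt
  dist_self := by
    rintro ⟨i | a⟩ <;> simp [dd]
  dist_comm := by
    rintro ⟨i | a⟩ ⟨j | b⟩ <;> simp only [dd, eq_comm]
  dist_triangle x y z := dd_triangle _ _ _
  eq_of_dist_eq_zero := by
    rintro ⟨x⟩ ⟨y⟩ h
    rw [dd_zero x y h]

/-- the three points -/
def px (i : Fin 3) : Mt := ⟨Sum.inl i⟩
/-- the points of the infinite set -/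
def pu (n : ℕ) : Mt := ⟨Sum.inr n⟩

lemma dist_px_px (i j : Fin 3) (h : i ≠ j) : dist (px i) (px j) = 9 := by
  show dd _ _ = 9
  simp [dd, px, h]
lemma dist_px_pu (i : Fin 3) (n : ℕ) : dist (px i) (pu n) = 5 := rfl
lemma dist_pu_px (i : Fin 3) (n : ℕ) : dist (pu n) (px i) = 5 := rfl
lemma dist_pu_pu (m n : ℕ) (h : m ≠ n) : dist (pu m) (pu n) = 1 := by
  show dd _ _ = 1
  simp [dd, pu, h]

lemma one_le_dist (x y : Mt) (h : x ≠ y) : 1 ≤ dist x y := by
  obtain ⟨i | a⟩ := x <;> obtain ⟨j | b⟩ := y
  · have : i ≠ j := fun h' => h (by rw [h'])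
    show 1 ≤ dd _ _
    simp [dd, this]
  · show (1 : ℝ) ≤ 5
    norm_num
  · show (1 : ℝ) ≤ 5
    norm_num
  · have : a ≠ b := fun h' => h (by rw [h'])
    show 1 ≤ dd _ _
    simp [dd, this]

/-- the distance from a point to a new point of the infinite set -/
noncomputable def dn (x : Mt) : ℝ := match x.pt with
  | Sum.inl _ => 5
  | Sum.inr _ => 1

lemma dn_eq (x : Mt) (n : ℕ) (h : x ≠ pu n) : dist x (pu n) = dn x := by
  obtain ⟨i | a⟩ := x
  · rfl
  · exact dist_pu_pu a n (fun h' => h (by rw [h']; rfl))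

/-- the base point -/
def o : Mt := pu 0

/-- every `1`-Lipschitz function on a set of points has a window of length one for the values at new points -/
lemma window (S : Finset Mt) (ho : o ∈ S) (f : Mt → ℝ) (hf : ∀ x ∈ S, ∀ y ∈ S, |f x - f y| ≤ dist x y) :
    ∃ L : ℝ, ∀ x ∈ S, f x - dn x ≤ L ∧ L + 1 ≤ f x + dn x := by
  have hne : S.Nonempty := ⟨o, ho⟩
  obtain ⟨s, hs, hmax⟩ := S.exists_max_image (fun x => f x - dn x) hne
  refine ⟨f s - dn s, fun x hx => ⟨hmax x hx, ?_⟩⟩
  have h1 := hf s hs x hx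
  have h2 := le_abs_self (f s - f x)
  by_cases hsx : s = x
  · rw [hsx]
    have : 1 ≤ dn x := by
      obtain ⟨i | a⟩ := x
      · show (1 : ℝ) ≤ 5
        norm_num
      · exact le_rfl
    linarith
  · have h3 : dist s x + 1 ≤ dn s + dn x := by
      obtain ⟨i | a⟩ := s <;> obtain ⟨j | b⟩ := x
      · have : i ≠ j := fun h' => hsx (by rw [h'])
        have h4 : dist (⟨Sum.inl i⟩ : Mt) ⟨Sum.inl j⟩ = 9 := dist_px_px i j this
        rw [h4]
        show (9 : ℝ) + 1 ≤ 5 + 5
        norm_num
      · show (5 : ℝ) + 1 ≤ 5 + 1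
        norm_num
      · show (5 : ℝ) + 1 ≤ 1 + 5
        norm_num
      · have : a ≠ b := fun h' => hsx (by rw [h'])
        have h4 : dist (⟨Sum.inr a⟩ : Mt) ⟨Sum.inr b⟩ = 1 := dist_pu_pu a b this
        rw [h4]
        show (1 : ℝ) + 1 ≤ 1 + 1
        norm_num
    linarith

/-- the modification of `f` off `S` -/
lemma modify (S : Finset Mt) (ho : o ∈ S) (f : Lip0 Mt o) (hf : ‖f‖ ≤ 1) (m n : ℕ) (hmn : m ≠ n)
    (hm : pu m ∉ S) (hn : pu n ∉ S) :
    ∃ g : Lip0 Mt o, ‖g‖ ≤ 1 ∧ (∀ x ∈ S, g.fn x = f.fn x) ∧ g.fn (pu m) - g.fn (pu n) = 1 := by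
  classical
  have hfl : ∀ x y, |f.fn x - f.fn y| ≤ dist x y := fun x y => by
    refine (f.abs_sub_le x y).trans ?_
    calc ‖f‖ * dist x y ≤ 1 * dist x y := mul_le_mul_of_nonneg_right hf dist_nonneg
      _ = _ := one_mul _
  set S' : Finset Mt := S ∪ {px 0, px 1, px 2} with hS'
  obtain ⟨L, hL⟩ := window S' (Finset.mem_union_left _ ho) f.fn (fun x _ y _ => hfl x y)
  have hm' : pu m ∉ S' := by
    rw [hS', Finset.mem_union]
    rintro (h | h)
    · exact hm h
    · simp [px, pu] at h
  have hn' : pu n ∉ S' := by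
    rw [hS', Finset.mem_union]
    rintro (h | h)
    · exact hn h
    · simp [px, pu] at h
  have hoff : ∀ x, x ∉ S' → ∃ k, x = pu k := by
    rintro ⟨i | a⟩ hx
    · exfalso
      apply hx
      rw [hS', Finset.mem_union]
      right
      fin_cases i <;> simp [px]
    · exact ⟨a, rfl⟩
  set g : Mt → ℝ := fun x => if x ∈ S' then f.fn x else if x = pu m then L + 1 else L with hg
  have gS : ∀ x, x ∈ S' → g x = f.fn x := fun x hx => by simp only [hg, if_pos hx]
  have gL : ∀ x, x ∉ S' → L ≤ g x ∧ g x ≤ L + 1 := fun x hx => by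
    simp only [hg, if_neg hx]
    split_ifs
    · exact ⟨by linarith, le_rfl⟩
    · exact ⟨le_rfl, by linarith⟩
  have key : ∀ x y, |g x - g y| ≤ dist x y := by
    intro x y
    by_cases hxy : x = y
    · rw [hxy]; simp
    by_cases hx : x ∈ S'
    · by_cases hy : y ∈ S'
      · rw [gS x hx, gS y hy]; exact hfl x y
      · obtain ⟨k, rfl⟩ := hoff y hy
        rw [gS x hx, dn_eq x k hxy, abs_le]
        obtain ⟨h1, h2⟩ := hL x hx
        obtain ⟨h3, h4⟩ := gL _ hy
        constructor <;> linarith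
    · obtain ⟨k, rfl⟩ := hoff x hx
      by_cases hy : y ∈ S'
      · rw [gS y hy, dist_comm, dn_eq y k (Ne.symm hxy), abs_le]
        obtain ⟨h1, h2⟩ := hL y hy
        obtain ⟨h3, h4⟩ := gL _ hx
        constructor <;> linarith
      · obtain ⟨h1, h2⟩ := gL _ hy
        obtain ⟨h3, h4⟩ := gL _ hx
        refine le_trans ?_ (one_le_dist _ _ hxy)
        rw [abs_le]
        constructor <;> linarith
  have g0 : g o = 0 := by
    rw [gS o (Finset.mem_union_left _ ho)]
    exact f.fn_base
  refine ⟨Lip0.mk g g0 1 zero_le_one (fun x y => by rw [one_mul]; exact key x y), ?_, ?_, ?_⟩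
  · exact Lip0.norm_le' _ zero_le_one (fun x y => by rw [one_mul]; exact key x y)
  · intro x hx
    exact gS x (Finset.mem_union_left _ hx)
  · show g (pu m) - g (pu n) = 1
    have hne : pu n ≠ pu m := by
      intro h
      have : Sum.inr n = (Sum.inr m : Pt) := congrArg Mt.pt h
      exact hmn (Sum.inr_injective this).symm
    simp only [hg, if_neg hm', if_neg hn', if_true, if_neg hne]
    ring

end Pool.Agent.R514.OC
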