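import Mathlib
import Pool.Agent.R514.OC.Space

set_option autoImplicit false

/-! The projective tensor product of the Lipschitz-free space of `Mt` and the Euclidean plane is not octahedral. -/

namespace Pool.Agent.R514.OC

open Pool.Agent.H266R3.LF
open scoped RealInnerProductSpace

/-- the Euclidean plane -/
abbrev E2 : Type := EuclideanSpace ℝ (Fin 2)

/-- the free space -/
abbrev FM : Type := FreeSp Mt o

/-- the element `δ_m` of the free space -/
noncomputable def dl (m : Mt) : FM := ⟨dlt Mt o m, dlt_mem m⟩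

lemma dl_o : dl o = 0 := by
  apply Subtype.ext
  apply ContinuousLinearMap.ext
  intro f
  show f.fn o = 0
  exact f.fn_base

lemma norm_dl_sub (x y : Mt) : ‖dl x - dl y‖ ≤ dist x y := norm_dlt_sub_le x y

/-- the elements of the span of the points -/
noncomputable def mkF (v : StrongDual ℝ (Lip0 Mt o)) (hv : v ∈ Submodule.span ℝ (Set.range (dlt Mt o))) : FM :=
  ⟨v, (show v ∈ LFree Mt o from Submodule.le_topologicalClosure _ hv)⟩

lemma free_ext (T : FM →L[ℝ] ℝ) (h : ∀ m, T (dl m) = 0) (a : FM) : T a = 0 := by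
  have hspan : ∀ v (hv : v ∈ Submodule.span ℝ (Set.range (dlt Mt o))), T (mkF v hv) = 0 := by
    intro v hv
    induction hv using Submodule.span_induction with
    | mem x hx =>
      obtain ⟨m, rfl⟩ := hx
      exact h m
    | zero => exact map_zero T
    | add x y hx hy h1 h2 =>
      have : T (mkF (x + y) (Submodule.add_mem _ hx hy)) = T (mkF x hx) + T (mkF y hy) :=
        map_add T (mkF x hx) (mkF y hy)
      rw [this, h1, h2, add_zero]
    | smul c x hx h1 =>
      have : T (mkF (c • x) (Submodule.smul_mem _ c hx)) = c • T (mkF x hx) :=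
        map_smul T c (mkF x hx)
      rw [this, h1, smul_zero]
  have h2 : ∀ e : ℝ, 0 < e → ‖T a‖ ≤ ‖T‖ * e := by
    intro e he
    have h1 : inc Mt o a ∈ closure ((Submodule.span ℝ (Set.range (dlt Mt o)) : Submodule ℝ _) :
        Set (StrongDual ℝ (Lip0 Mt o))) := by
      have := inc_mem a
      unfold LFree at this
      exact this
    obtain ⟨v, hv1, hv2⟩ := Metric.mem_closure_iff.1 h1 e he
    rw [dist_eq_norm] at hv2
    have h3 : T a = T (a - mkF v hv1) := by
      rw [map_sub T a (mkF v hv1), hspan v hv1, sub_zero]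
    rw [h3]
    refine (T.le_opNorm _).trans (mul_le_mul_of_nonneg_left ?_ (norm_nonneg _))
    exact hv2.le
  by_contra hne
  have h3 : 0 < ‖T a‖ := norm_pos_iff.2 hne
  have h4 := h2 (‖T a‖ / (2 * (‖T‖ + 1))) (by positivity)
  have h5 : ‖T‖ * (‖T a‖ / (2 * (‖T‖ + 1))) ≤ ‖T a‖ / 2 := by
    rw [mul_div_assoc', div_le_div_iff₀ (by positivity) (by norm_num)]
    nlinarith [norm_nonneg T]
  linarith

/-- the three directions -/
noncomputable def ws : Fin 3 → E2 := ![!₂[1, 0], !₂[-3/5, 4/5], !₂[-3/5, -4/5]]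
/-- the three weights -/
noncomputable def cs : Fin 3 → ℝ := ![6, 5, 5]

lemma ws_norm (i : Fin 3) : ‖ws i‖ = 1 := by
  rw [EuclideanSpace.norm_eq, Real.sqrt_eq_one]
  fin_cases i <;> simp [ws, Fin.sum_univ_two] <;> norm_num

lemma ws_sum : ∑ i, cs i • ws i = 0 := by
  apply PiLp.ext
  intro j
  fin_cases j <;> simp [ws, cs, Fin.sum_univ_three] <;> norm_num

lemma ws_dist (i j : Fin 3) : ‖(5 : ℝ) • ws i - (5 : ℝ) • ws j‖ ≤ 9 := by
  rw [EuclideanSpace.norm_eq]
  apply Real.sqrt_le_iff.2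
  constructor
  · norm_num
  · fin_cases i <;> fin_cases j <;> simp [ws, Fin.sum_univ_two] <;> norm_num

/-- the extremal map -/
noncomputable def f0 (m : Mt) : E2 := match m.pt with
  | Sum.inl i => (5 : ℝ) • ws i
  | Sum.inr _ => 0

lemma f0_lip (x y : Mt) : ‖f0 x - f0 y‖ ≤ dist x y := by
  obtain ⟨i | a⟩ := x <;> obtain ⟨j | b⟩ := y
  · by_cases h : i = j
    · rw [h]; simp
    · have h1 : dist (⟨Sum.inl i⟩ : Mt) ⟨Sum.inl j⟩ = 9 := dist_px_px i j h
      rw [h1]
      exact ws_dist i j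
  · show ‖(5 : ℝ) • ws i - 0‖ ≤ 5
    rw [sub_zero, norm_smul, ws_norm]
    norm_num
  · show ‖0 - (5 : ℝ) • ws j‖ ≤ 5
    rw [zero_sub, norm_neg, norm_smul, ws_norm]
    norm_num
  · show ‖(0 : E2) - 0‖ ≤ _
    rw [sub_zero, norm_zero]
    exact dist_nonneg

lemma f0_o : f0 o = 0 := rfl

/-- the scalar function `⟨f0, w⟩` -/
noncomputable def Fw (w : E2) : Lip0 Mt o :=
  Lip0.mk (fun m => ⟪f0 m, w⟫) (by rw [f0_o, inner_zero_left]) ‖w‖ (norm_nonneg _) (fun x y => by
    rw [← inner_sub_left]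
    refine (abs_real_inner_le_norm _ _).trans ?_
    rw [mul_comm]
    exact mul_le_mul_of_nonneg_left (f0_lip x y) (norm_nonneg _))

lemma Fw_norm (w : E2) : ‖Fw w‖ ≤ ‖w‖ := by
  refine Lip0.norm_le' _ (norm_nonneg _) (fun x y => ?_)
  show |⟪f0 x, w⟫ - ⟪f0 y, w⟫| ≤ _
  rw [← inner_sub_left]
  refine (abs_real_inner_le_norm _ _).trans ?_
  rw [mul_comm]
  exact mul_le_mul_of_nonneg_left (f0_lip x y) (norm_nonneg _)

lemma Fw_add (v w : E2) : Fw (v + w) = Fw v + Fw w := by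
  apply Lip0.ext
  intro m
  show ⟪f0 m, v + w⟫ = ⟪f0 m, v⟫ + ⟪f0 m, w⟫
  rw [inner_add_right]

lemma Fw_smul (c : ℝ) (w : E2) : Fw (c • w) = c • Fw w := by
  apply Lip0.ext
  intro m
  show ⟪f0 m, c • w⟫ = c * ⟪f0 m, w⟫
  rw [real_inner_smul_right]

/-- the extremal bilinear map -/
noncomputable def b0lin : FM →ₗ[ℝ] E2 →ₗ[ℝ] ℝ :=
  LinearMap.mk₂ ℝ (fun (a : FM) (w : E2) => inc Mt o a (Fw w))
    (fun a a' w => by rw [map_add, add_apply])
    (fun c a w => by rw [map_smul, smul_apply])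
    (fun a w w' => by rw [Fw_add, map_add])
    (fun c a w => by rw [Fw_smul, map_smul])

lemma b0bound (a : FM) (w : E2) : ‖b0lin a w‖ ≤ 1 * ‖a‖ * ‖w‖ := by
  refine ((inc Mt o a).le_opNorm _).trans ?_
  rw [norm_inc, one_mul]
  exact mul_le_mul_of_nonneg_left (Fw_norm w) (norm_nonneg _)

/-- the extremal bilinear form -/
noncomputable def b0 : Bil FM E2 :=
  (show FM →L[ℝ] E2 →L[ℝ] ℝ from LinearMap.mkContinuous₂ b0lin 1 b0bound)

lemma b0_norm : ‖b0‖ ≤ 1 := LinearMap.mkContinuous₂_norm_le _ zero_le_one b0bound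

lemma b0_val (m : Mt) (w : E2) : b0.val (dl m) w = ⟪f0 m, w⟫ := rfl

/-- near-extremal functionals on the plane -/
lemma riesz (β : E2 →L[ℝ] ℝ) (hβ : ‖β‖ ≤ 5) (w : E2) (hw : ‖w‖ = 1) (η : ℝ) (h : 5 - η ≤ β w) (x : E2) :
    |β x - 5 * ⟪w, x⟫| ≤ √(10 * η) * ‖x‖ := by
  set v := (InnerProductSpace.toDual ℝ E2).symm β with hv
  have hv1 : ∀ x, ⟪v, x⟫ = β x := fun x => InnerProductSpace.toDual_symm_apply
  have hv2 : ‖v‖ ≤ 5 := by rw [hv, LinearIsometryEquiv.norm_map]; exact hβ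
  have h1 : ‖v - (5 : ℝ) • w‖ ^ 2 ≤ 10 * η := by
    rw [norm_sub_sq_real, norm_smul, hw, real_inner_smul_right, hv1]
    have : ‖v‖ ^ 2 ≤ 25 := by nlinarith [norm_nonneg v]
    norm_num
    linarith
  have h2 : ‖v - (5 : ℝ) • w‖ ≤ √(10 * η) := Real.le_sqrt_of_sq_le h1
  have h3 : β x - 5 * ⟪w, x⟫ = ⟪v - (5 : ℝ) • w, x⟫ := by
    rw [inner_sub_left, hv1, real_inner_smul_left]
  rw [h3]
  exact (abs_real_inner_le_norm _ _).trans (mul_le_mul_of_nonneg_right h2 (norm_nonneg _))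

/-- the value of the critical tensor at a bilinear form -/
noncomputable def yv (b : Bil FM E2) : ℝ := ∑ i, cs i * b.val (dl (px i)) (ws i)

lemma val_sub_left (b : Bil FM E2) (a a' : FM) (x : E2) : b.val (a - a') x = b.val a x - b.val a' x := by
  show (show FM →L[ℝ] E2 →L[ℝ] ℝ from b) (a - a') x = _
  rw [map_sub]
  rfl

lemma yv_eq (b : Bil FM E2) (n : ℕ) : yv b = ∑ i, cs i * b.val (dl (px i) - dl (pu n)) (ws i) := by
  have h1 : ∑ i, cs i * b.val (dl (pu n)) (ws i) = 0 := by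
    have h2 : (show FM →L[ℝ] E2 →L[ℝ] ℝ from b) (dl (pu n)) (∑ i, cs i • ws i) = 0 := by
      rw [ws_sum, map_zero]
    rw [map_sum] at h2
    rw [← h2]
    apply Finset.sum_congr rfl
    intro i _
    rw [map_smul, smul_eq_mul]
    rfl
  unfold yv
  rw [← sub_zero (∑ i, cs i * b.val (dl (px i)) (ws i)), ← h1, ← Finset.sum_sub_distrib]
  apply Finset.sum_congr rfl
  intro i _
  rw [val_sub_left]
  ring

lemma cs_pos (i : Fin 3) : 1 ≤ cs i := by
  fin_cases i <;> simp [cs]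

lemma cs_sum : ∑ i, cs i = 16 := by
  simp [cs, Fin.sum_univ_three]; norm_num

lemma term_le (b : Bil FM E2) (hb : ‖b‖ ≤ 1) (i : Fin 3) (n : ℕ) :
    |b.val (dl (px i) - dl (pu n)) (ws i)| ≤ 5 := by
  refine (b.val_le _ _).trans ?_
  rw [ws_norm, mul_one]
  have h1 := norm_dl_sub (px i) (pu n)
  rw [dist_px_pu] at h1
  calc ‖b‖ * ‖dl (px i) - dl (pu n)‖ ≤ 1 * 5 := mul_le_mul hb h1 (norm_nonneg _) zero_le_one
    _ = 5 := one_mul _

lemma yv_le (b : Bil FM E2) (hb : ‖b‖ ≤ 1) : yv b ≤ 80 := by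
  rw [yv_eq b 0]
  have h : ∀ i, cs i * b.val (dl (px i) - dl (pu 0)) (ws i) ≤ cs i * 5 := fun i =>
    mul_le_mul_of_nonneg_left ((le_abs_self _).trans (term_le b hb i 0)) (by have := cs_pos i; linarith)
  calc ∑ i, cs i * b.val (dl (px i) - dl (pu 0)) (ws i) ≤ ∑ i, cs i * 5 := Finset.sum_le_sum (fun i _ => h i)
    _ = 80 := by rw [← Finset.sum_mul, cs_sum]; norm_num

lemma yv_b0 : yv b0 = 80 := by
  unfold yv
  have h : ∀ i, cs i * b0.val (dl (px i)) (ws i) = cs i * 5 := fun i => by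
    rw [b0_val]
    show cs i * ⟪(5 : ℝ) • ws i, ws i⟫ = cs i * 5
    rw [real_inner_smul_left, real_inner_self_eq_norm_sq, ws_norm]
    ring
  rw [Finset.sum_congr rfl (fun i _ => h i), ← Finset.sum_mul, cs_sum]
  norm_num

lemma near (b : Bil FM E2) (hb : ‖b‖ ≤ 1) (η : ℝ) (h : 80 - η ≤ yv b) (i : Fin 3) (n : ℕ) (x : E2) :
    |b.val (dl (px i) - dl (pu n)) x - 5 * ⟪ws i, x⟫| ≤ √(10 * η) * ‖x‖ := by
  set β : E2 →L[ℝ] ℝ := (show FM →L[ℝ] E2 →L[ℝ] ℝ from b) (dl (px i) - dl (pu n)) with hβ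
  have h1 : ‖β‖ ≤ 5 := by
    refine ((show FM →L[ℝ] E2 →L[ℝ] ℝ from b).le_opNorm _).trans ?_
    have h1 := norm_dl_sub (px i) (pu n)
    rw [dist_px_pu] at h1
    calc _ ≤ 1 * 5 := mul_le_mul hb h1 (norm_nonneg _) zero_le_one
      _ = 5 := one_mul _
  have h2 : 5 - η ≤ β (ws i) := by
    rw [yv_eq b n] at h
    have h3 : ∑ j, cs j * (5 - b.val (dl (px j) - dl (pu n)) (ws j)) ≤ η := by
      have : ∑ j, cs j * (5 - b.val (dl (px j) - dl (pu n)) (ws j)) =
          80 - ∑ j, cs j * b.val (dl (px j) - dl (pu n)) (ws j) := by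
        simp_rw [mul_sub]
        rw [Finset.sum_sub_distrib, ← Finset.sum_mul, cs_sum]
        norm_num
      linarith
    have h4 : ∀ j, 0 ≤ 5 - b.val (dl (px j) - dl (pu n)) (ws j) := fun j => by
      have := (le_abs_self _).trans (term_le b hb j n)
      linarith
    have h5 : cs i * (5 - b.val (dl (px i) - dl (pu n)) (ws i)) ≤
        ∑ j, cs j * (5 - b.val (dl (px j) - dl (pu n)) (ws j)) :=
      Finset.single_le_sum (f := fun j => cs j * (5 - b.val (dl (px j) - dl (pu n)) (ws j)))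
        (fun j _ => mul_nonneg (by have := cs_pos j; linarith) (h4 j)) (Finset.mem_univ i)
    have h6 : 1 * (5 - b.val (dl (px i) - dl (pu n)) (ws i)) ≤
        cs i * (5 - b.val (dl (px i) - dl (pu n)) (ws i)) := mul_le_mul_of_nonneg_right (cs_pos i) (h4 i)
    have h7 : β (ws i) = b.val (dl (px i) - dl (pu n)) (ws i) := rfl
    rw [h7]
    linarith
  exact riesz β h1 (ws i) (ws_norm i) η h2 x

/-- near-extremal bilinear forms are near the extremal one -/
lemma close (b : Bil FM E2) (hb : ‖b‖ ≤ 1) (η : ℝ) (h : 80 - η ≤ yv b) : ‖b - b0‖ ≤ 4 * √(10 * η) := by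
  set κ := √(10 * η) with hκ
  have hκ0 : 0 ≤ κ := Real.sqrt_nonneg _
  have hval : ∀ m x, (b - b0).val (dl m) x = b.val (dl m) x - ⟪f0 m, x⟫ := fun m x => rfl
  have hpu0 : dl (pu 0) = 0 := dl_o
  have hpx : ∀ i x, |b.val (dl (px i)) x - 5 * ⟪ws i, x⟫| ≤ κ * ‖x‖ := by
    intro i x
    have := near b hb η h i 0 x
    rwa [hpu0, sub_zero] at this
  have hm : ∀ m x, |(b - b0).val (dl m) x| ≤ 2 * κ * ‖x‖ := by
    intro m x
    have hx := mul_nonneg hκ0 (norm_nonneg x)
    rw [hval]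
    obtain ⟨i | n⟩ := m
    · have h1 : ⟪f0 ⟨Sum.inl i⟩, x⟫ = 5 * ⟪ws i, x⟫ := by
        show ⟪(5 : ℝ) • ws i, x⟫ = _
        rw [real_inner_smul_left]
      rw [h1]
      refine (hpx i x).trans ?_
      linarith
    · have h1 : ⟪f0 ⟨Sum.inr n⟩, x⟫ = 0 := by
        show ⟪(0 : E2), x⟫ = 0
        rw [inner_zero_left]
      rw [h1, sub_zero]
      have h2 := near b hb η h 0 n x
      rw [val_sub_left] at h2
      have h3 := hpx 0 x
      have e : b.val (dl ⟨Sum.inr n⟩) x = (b.val (dl (px 0)) x - 5 * ⟪ws 0, x⟫) -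
          (b.val (dl (px 0)) x - b.val (dl (pu n)) x - 5 * ⟪ws 0, x⟫) := by
        have : b.val (dl ⟨Sum.inr n⟩) x = b.val (dl (pu n)) x := rfl
        rw [this]; ring
      rw [e]
      refine (abs_sub _ _).trans ?_
      linarith
  -- the scalar Lipschitz functions of `b - b0`
  have hlip : ∀ x, ∀ m m', |(b - b0).val (dl m) x - (b - b0).val (dl m') x| ≤ 4 * κ * ‖x‖ * dist m m' := by
    intro x m m'
    by_cases hmm : m = m'
    · rw [hmm]; simp
    · have h1 := hm m x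
      have h2 := hm m' x
      have h3 := one_le_dist m m' hmm
      have h4 : 0 ≤ 4 * κ * ‖x‖ := by positivity
      refine (abs_sub _ _).trans ?_
      nlinarith
  have hbase : ∀ x, (b - b0).val (dl o) x = 0 := by
    intro x
    rw [dl_o]
    show (show FM →L[ℝ] E2 →L[ℝ] ℝ from (b - b0)) 0 x = 0
    rw [map_zero]
    rfl
  refine ContinuousLinearMap.opNorm_le_bound₂ (show FM →L[ℝ] E2 →L[ℝ] ℝ from (b - b0)) (by positivity) (fun a x => ?_)
  set g : Lip0 Mt o := Lip0.mk (fun m => (b - b0).val (dl m) x) (hbase x) (4 * κ * ‖x‖) (by positivity)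
    (hlip x) with hg
  have hgn : ‖g‖ ≤ 4 * κ * ‖x‖ := Lip0.norm_le' _ (by positivity) (hlip x)
  -- the functional `a ↦ (b - b0)(a, x) - a(g)` vanishes
  set T : FM →L[ℝ] ℝ := ((show FM →L[ℝ] E2 →L[ℝ] ℝ from (b - b0)).flip x) -
    (LinearMap.mkContinuous
      { toFun := fun a : FM => inc Mt o a g
        map_add' := fun a a' => by rw [map_add, add_apply]
        map_smul' := fun c a => by rw [map_smul, smul_apply]; rfl } ‖g‖ (fun a => by
          show ‖inc Mt o a g‖ ≤ _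
          refine ((inc Mt o a).le_opNorm _).trans (le_of_eq ?_)
          rw [norm_inc, mul_comm])) with hT
  have hTa := free_ext T (fun m => by
    show (b - b0).val (dl m) x - (b - b0).val (dl m) x = 0
    rw [sub_self]) a
  have h1 : (b - b0).val a x = inc Mt o a g := by
    have : T a = (b - b0).val a x - inc Mt o a g := rfl
    rw [this] at hTa
    linarith
  show ‖(b - b0).val a x‖ ≤ _
  rw [h1]
  refine ((inc Mt o a).le_opNorm _).trans ?_
  rw [norm_inc]
  calc ‖a‖ * ‖g‖ ≤ ‖a‖ * (4 * κ * ‖x‖) := mul_le_mul_of_nonneg_left hgn (norm_nonneg _)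
    _ = _ := by ring

/-- the elementary tensor, as an element of the tensor product -/
noncomputable def tn (a : FM) (x : E2) : ProjTensor FM E2 :=
  ⟨elem FM E2 a x, Submodule.le_topologicalClosure _ (Submodule.subset_span ⟨a, x, rfl⟩)⟩

/-- inclusion in the dual of the bilinear forms -/
noncomputable def iT : ProjTensor FM E2 →ₗ[ℝ] StrongDual ℝ (Bil FM E2) := (tensorSpan FM E2).subtype

lemma iT_norm (z : ProjTensor FM E2) : ‖iT z‖ = ‖z‖ := rfl

/-- the critical tensor -/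
noncomputable def yy : ProjTensor FM E2 := ∑ i, cs i • tn (dl (px i)) (ws i)

lemma yy_val (b : Bil FM E2) : iT yy b = yv b := by
  unfold yy yv
  rw [map_sum, sum_apply]
  apply Finset.sum_congr rfl
  intro i _
  rw [map_smul, smul_apply]
  rfl

lemma yy_norm : ‖yy‖ = 80 := by
  rw [← iT_norm]
  apply le_antisymm
  · refine ContinuousLinearMap.opNorm_le_bound _ (by norm_num) (fun b => ?_)
    rw [yy_val]
    by_cases hb : b = 0
    · rw [hb, ← yy_val, map_zero, norm_zero, norm_zero, mul_zero]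
    · have hbn : 0 < ‖b‖ := norm_pos_iff.2 hb
      have hs : ∀ s : ℝ, |s| = 1 → yv ((s * ‖b‖⁻¹) • b) ≤ 80 := fun s hs => by
        apply yv_le
        rw [norm_smul, norm_mul, norm_inv, norm_norm, Real.norm_eq_abs, hs, one_mul, inv_mul_cancel₀ hbn.ne']
      have e : ∀ s : ℝ, yv ((s * ‖b‖⁻¹) • b) = s * ‖b‖⁻¹ * yv b := fun s => by
        rw [← yy_val, map_smul, yy_val, smul_eq_mul]
      rw [Real.norm_eq_abs, abs_le]
      have h1 := hs 1 abs_one
      have h2 := hs (-1) (by simp)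
      rw [e] at h1 h2
      have h3 : ‖b‖⁻¹ * yv b ≤ 80 := by linarith
      have h4 : -80 ≤ ‖b‖⁻¹ * yv b := by linarith
      rw [inv_mul_le_iff₀ hbn] at h3
      rw [le_inv_mul_iff₀ hbn] at h4
      constructor <;> linarith
  · have h1 := (iT yy).le_opNorm b0
    rw [yy_val, yv_b0] at h1
    have h2 : ‖iT yy‖ * ‖b0‖ ≤ ‖iT yy‖ * 1 := mul_le_mul_of_nonneg_left b0_norm (norm_nonneg _)
    have h3 : ‖(80 : ℝ)‖ = 80 := by norm_num
    linarith

theorem not_octa : ¬ Octahedral (ProjTensor FM E2) := by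
  intro H
  obtain ⟨z, hz, h⟩ := H (Submodule.span ℝ {yy}) inferInstance (1 / 82000) (by norm_num)
  have key : ∀ s : ℝ, |s| = 1 → 1 / 2 < s * iT z b0 := by
    intro s hs
    have h1 := h yy (Submodule.mem_span_singleton_self _) s
    rw [yy_norm, hs] at h1
    have h2 : (81 : ℝ) - 1 / 1000 < ‖iT (yy + s • z)‖ := by
      rw [iT_norm]
      refine lt_of_lt_of_le ?_ h1
      norm_num
    obtain ⟨b, hb1, hb2⟩ : ∃ b : Bil FM E2, ‖b‖ ≤ 1 ∧ (81 : ℝ) - 1 / 1000 < iT (yy + s • z) b := by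
      obtain ⟨f, hf1, hf2⟩ := (iT (yy + s • z)).exists_lt_apply_of_lt_opNorm h2
      rcases le_total 0 (iT (yy + s • z) f) with h | h
      · exact ⟨f, hf1.le, by rwa [Real.norm_of_nonneg h] at hf2⟩
      · refine ⟨-f, by rw [norm_neg]; exact hf1.le, ?_⟩
        rw [map_neg]
        rwa [Real.norm_of_nonpos h] at hf2
    rw [map_add, map_smul, add_apply, smul_apply, yy_val, smul_eq_mul] at hb2
    have h3 := yv_le b hb1
    have h4 : |s * iT z b| ≤ 1 := by
      rw [abs_mul, hs, one_mul]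
      have := (iT z).le_opNorm b
      rw [iT_norm, hz, one_mul] at this
      exact this.trans hb1
    have h5 := (le_abs_self _).trans h4
    have h6 := close b hb1 (1 / 1000) (by linarith)
    have h7 : √(10 * (1 / 1000)) = 1 / 10 := by
      rw [show (10 * (1 / 1000) : ℝ) = (1 / 10) ^ 2 by norm_num]
      exact Real.sqrt_sq (by norm_num)
    rw [h7] at h6
    have h8 : |s * iT z (b - b0)| ≤ 4 * (1 / 10) := by
      rw [abs_mul, hs, one_mul]
      have := (iT z).le_opNorm (b - b0)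
      rw [iT_norm, hz, one_mul] at this
      exact this.trans h6
    have h9 := (le_abs_self _).trans h8
    rw [map_sub, mul_sub] at h9
    linarith
  have h1 := key 1 abs_one
  have h2 := key (-1) (by simp)
  linarith

end Pool.Agent.R514.OC
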