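import Mathlib
import Pool.Agent.R514.OC.Space

set_option autoImplicit false

/-! The Lipschitz-free space of the metric space `Mt` has an octahedral norm. -/

namespace Pool.Agent.R514.OC

open Pool.Agent.H266R3.LF

/-- the dual of the space of the Lipschitz functions -/
abbrev DL : Type := StrongDual ℝ (Lip0 Mt o)

/-- `v` depends only on the values of the functions on `S` -/
def SuppIn (S : Finset Mt) (v : DL) : Prop := ∀ f g : Lip0 Mt o, (∀ x ∈ S, f.fn x = g.fn x) → v f = v g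

lemma SuppIn.mono {S T : Finset Mt} (h : S ⊆ T) {v : DL} (hv : SuppIn S v) : SuppIn T v :=
  fun f g hfg => hv f g (fun x hx => hfg x (h hx))

lemma exists_supp (v : DL) (hv : v ∈ Submodule.span ℝ (Set.range (dlt Mt o))) : ∃ S, SuppIn S v := by
  classical
  induction hv using Submodule.span_induction with
  | mem x hx =>
    obtain ⟨m, rfl⟩ := hx
    refine ⟨{m}, fun f g h => ?_⟩
    rw [dlt_apply, dlt_apply]
    exact h m (Finset.mem_singleton_self m)
  | zero => exact ⟨∅, fun f g _ => rfl⟩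
  | add x y _ _ hx hy =>
    obtain ⟨S, hS⟩ := hx
    obtain ⟨T, hT⟩ := hy
    refine ⟨S ∪ T, fun f g h => ?_⟩
    rw [add_apply, add_apply, hS.mono Finset.subset_union_left f g h, hT.mono Finset.subset_union_right f g h]
  | smul c x _ hx =>
    obtain ⟨S, hS⟩ := hx
    refine ⟨S, fun f g h => ?_⟩
    rw [smul_apply, smul_apply, hS f g h]

lemma core_pos (S : Finset Mt) (ho : o ∈ S) (v : DL) (hv : SuppIn S v) (m n : ℕ) (hmn : m ≠ n)
    (hm : pu m ∉ S) (hn : pu n ∉ S) (c : ℝ) :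
    ‖v‖ + c ≤ ‖v + c • (dlt Mt o (pu m) - dlt Mt o (pu n))‖ := by
  apply le_of_forall_pos_lt_add
  intro η hη
  obtain ⟨f, hf1, hf2⟩ : ∃ f : Lip0 Mt o, ‖f‖ ≤ 1 ∧ ‖v‖ - η < v f := by
    obtain ⟨f, hf1, hf2⟩ := v.exists_lt_apply_of_lt_opNorm (r := ‖v‖ - η) (by linarith)
    rcases le_total 0 (v f) with h | h
    · exact ⟨f, hf1.le, by rwa [Real.norm_of_nonneg h] at hf2⟩
    · refine ⟨-f, by rw [norm_neg]; exact hf1.le, ?_⟩
      rw [map_neg]
      rwa [Real.norm_of_nonpos h] at hf2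
  obtain ⟨g, hg1, hg2, hg3⟩ := modify S ho f hf1 m n hmn hm hn
  have h1 : v g = v f := hv g f hg2
  have h2 : (v + c • (dlt Mt o (pu m) - dlt Mt o (pu n))) g = v f + c := by
    rw [add_apply, smul_apply, sub_apply, dlt_apply, dlt_apply, hg3, h1, smul_eq_mul, mul_one]
  have h3 := (v + c • (dlt Mt o (pu m) - dlt Mt o (pu n))).le_opNorm g
  rw [h2] at h3
  have h4 := Real.le_norm_self (v f + c)
  have h5 : ‖v + c • (dlt Mt o (pu m) - dlt Mt o (pu n))‖ * ‖g‖ ≤
      ‖v + c • (dlt Mt o (pu m) - dlt Mt o (pu n))‖ * 1 := mul_le_mul_of_nonneg_left hg1 (norm_nonneg _)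
  linarith

lemma core_abs (S : Finset Mt) (ho : o ∈ S) (v : DL) (hv : SuppIn S v) (m n : ℕ) (hmn : m ≠ n)
    (hm : pu m ∉ S) (hn : pu n ∉ S) (c : ℝ) :
    ‖v‖ + |c| ≤ ‖v + c • (dlt Mt o (pu m) - dlt Mt o (pu n))‖ := by
  rcases le_total 0 c with hc | hc
  · rw [abs_of_nonneg hc]
    exact core_pos S ho v hv m n hmn hm hn c
  · rw [abs_of_nonpos hc]
    have h := core_pos S ho v hv n m hmn.symm hn hm (-c)
    have e : (-c) • (dlt Mt o (pu n) - dlt Mt o (pu m)) = c • (dlt Mt o (pu m) - dlt Mt o (pu n)) := by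
      apply ContinuousLinearMap.ext
      intro f
      rw [smul_apply, smul_apply, sub_apply, sub_apply, smul_eq_mul, smul_eq_mul]
      ring
    rwa [e] at h

lemma fresh (S : Finset Mt) : ∃ N : ℕ, ∀ k, N ≤ k → pu k ∉ S := by
  have hinj : Function.Injective pu := by
    intro a b h
    have : (Sum.inr a : Pt) = Sum.inr b := congrArg Mt.pt h
    exact Sum.inr_injective this
  have hfin : (pu ⁻¹' (S : Set Mt)).Finite := S.finite_toSet.preimage hinj.injOn
  obtain ⟨B, hB⟩ := hfin.bddAbove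
  refine ⟨B + 1, fun k hk h => ?_⟩
  have := hB (show k ∈ pu ⁻¹' (S : Set Mt) from h)
  omega

theorem octa : Octahedral (FreeSp Mt o) := by
  classical
  intro Y hY ε hε
  set e : ℝ := ε / 4 with he
  have he0 : 0 < e := by positivity
  have : ProperSpace Y := FiniteDimensional.proper ℝ Y
  obtain ⟨t, -, htf, htc⟩ := (isCompact_sphere (0 : Y) 1).finite_cover_balls he0
  -- approximation of the elements of `t`
  have happ : ∀ y : Y, ∃ v : DL, (∃ S, SuppIn S v) ∧ ‖inc Mt o (y : FreeSp Mt o) - v‖ < e := by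
    intro y
    have h1 : inc Mt o (y : FreeSp Mt o) ∈ closure ((Submodule.span ℝ (Set.range (dlt Mt o)) : Submodule ℝ DL) : Set DL) := by
      have := inc_mem (y : FreeSp Mt o)
      unfold LFree at this
      exact this
    obtain ⟨v, hv1, hv2⟩ := Metric.mem_closure_iff.1 h1 e he0
    refine ⟨v, exists_supp v hv1, ?_⟩
    rwa [dist_eq_norm] at hv2
  choose v hS hv using happ
  choose S hS using hS
  set T : Finset Mt := insert o (htf.toFinset.biUnion S) with hT
  have hTS : ∀ y ∈ t, SuppIn T (v y) := by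
    intro y hy
    refine (hS y).mono ?_
    intro x hx
    rw [hT, Finset.mem_insert, Finset.mem_biUnion]
    exact Or.inr ⟨y, htf.mem_toFinset.2 hy, hx⟩
  obtain ⟨N, hN⟩ := fresh T
  have hm := hN N le_rfl
  have hn := hN (N + 1) (by omega)
  have hmn : N ≠ N + 1 := by omega
  have ho : o ∈ T := Finset.mem_insert_self _ _
  set w : DL := dlt Mt o (pu N) - dlt Mt o (pu (N + 1)) with hw
  have hwm : w ∈ LFree Mt o := (LFree Mt o).sub_mem (dlt_mem _) (dlt_mem _)
  set z : FreeSp Mt o := ⟨w, hwm⟩ with hz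
  have hzi : inc Mt o z = w := rfl
  have hw1 : ‖w‖ = 1 := by
    apply le_antisymm
    · exact (norm_dlt_sub_le _ _).trans (le_of_eq (dist_pu_pu _ _ hmn))
    · have h := core_abs T ho 0 (fun f g _ => rfl) N (N + 1) hmn hm hn 1
      rw [norm_zero, zero_add, zero_add, abs_one, one_smul] at h
      exact h
  refine ⟨z, hw1, fun y hy c => ?_⟩
  by_cases hy0 : y = 0
  · rw [hy0, norm_zero, zero_add, zero_add, norm_smul]
    have : ‖z‖ = 1 := hw1
    rw [this, mul_one, Real.norm_eq_abs]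
    have := abs_nonneg c
    nlinarith
  · have hyn : 0 < ‖y‖ := norm_pos_iff.2 hy0
    set u : Y := ⟨‖y‖⁻¹ • y, Y.smul_mem _ hy⟩ with hu
    have hu1 : ‖u‖ = 1 := by
      show ‖‖y‖⁻¹ • y‖ = 1
      rw [norm_smul, norm_inv, norm_norm, inv_mul_cancel₀ hyn.ne']
    have hmem : u ∈ Metric.sphere (0 : Y) 1 := by
      rw [mem_sphere_iff_norm, sub_zero]
      exact hu1
    obtain ⟨y', hy't, hy'⟩ := Set.mem_iUnion₂.1 (htc hmem)
    rw [Metric.mem_ball, dist_eq_norm] at hy'
    have h1 : ‖inc Mt o (u : FreeSp Mt o) - v y'‖ < 2 * e := by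
      have e1 : inc Mt o (u : FreeSp Mt o) - v y' = inc Mt o ((u - y' : Y) : FreeSp Mt o) +
          (inc Mt o (y' : FreeSp Mt o) - v y') := by
        rw [Submodule.coe_sub, map_sub]
        abel
      rw [e1]
      refine (norm_add_le _ _).trans_lt ?_
      have h2 : ‖inc Mt o ((u - y' : Y) : FreeSp Mt o)‖ = ‖u - y'‖ := rfl
      rw [h2]
      have := hv y'
      linarith
    have h2 := core_abs T ho (v y') (hTS y' hy't) N (N + 1) hmn hm hn (c / ‖y‖)
    rw [← hw] at h2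
    have hyu : y = ‖y‖ • (u : FreeSp Mt o) := by
      show y = ‖y‖ • (‖y‖⁻¹ • y)
      rw [smul_smul, mul_inv_cancel₀ hyn.ne', one_smul]
    have h3 : ‖y + c • z‖ = ‖y‖ * ‖inc Mt o (u : FreeSp Mt o) + (c / ‖y‖) • w‖ := by
      have e0 : ‖y‖ • ((c / ‖y‖) • z) = c • z := by
        rw [smul_smul]
        congr 1
        field_simp
      have e1 : y + c • z = ‖y‖ • ((u : FreeSp Mt o) + (c / ‖y‖) • z) := by
        rw [smul_add, e0, ← hyu]
      rw [e1, norm_smul, norm_norm]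
      rfl
    have hub : ‖inc Mt o (u : FreeSp Mt o)‖ = 1 := hu1
    have h4 : ‖inc Mt o (u : FreeSp Mt o)‖ - ‖v y'‖ < 2 * e :=
      (norm_sub_norm_le _ _).trans_lt h1
    have h5 : ‖v y' + (c / ‖y‖) • w‖ - ‖inc Mt o (u : FreeSp Mt o) + (c / ‖y‖) • w‖ < 2 * e := by
      refine (norm_sub_norm_le _ _).trans_lt ?_
      rw [add_sub_add_right_eq_sub, norm_sub_rev]
      exact h1
    rw [hub] at h4
    have h6 : 1 - 4 * e + |c / ‖y‖| ≤ ‖inc Mt o (u : FreeSp Mt o) + (c / ‖y‖) • w‖ := by linarith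
    have h7 : ‖y‖ * (1 - 4 * e + |c / ‖y‖|) ≤ ‖y + c • z‖ := by
      rw [h3]
      exact mul_le_mul_of_nonneg_left h6 hyn.le
    have h8 : ‖y‖ * |c / ‖y‖| = |c| := by
      rw [abs_div, abs_norm]
      field_simp
    have h9 : ‖y‖ * (1 - 4 * e + |c / ‖y‖|) = (1 - ε) * ‖y‖ + |c| := by
      rw [mul_add, h8, he]; ring
    rw [h9] at h7
    have := abs_nonneg c
    nlinarith

end Pool.Agent.R514.OC
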